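import Pool.Agent.helper88.OF.Defs
import Pool.Agent.helper31.QR.KL

/-! # Project OF, module SC: single cosets -/

namespace Pool.Agent.helper88.OF

open Finset Pool.Agent.helper76.LP

/-- the number of points of `g` in the coset of `u w0 x` is the size of the slice -/
theorem SC_slice {G ι : Type*} [CommGroup G] [Fintype G] (Γ : ι → Subgroup G) (L : List ι)
    (f g : G → ℤ) (x u w0 : G) (hw0 : w0 ∈ Pl Γ L)
    (hg : ∀ w ∈ Pl Γ L, g (u * w * x) = f (u * w * x)) :
    Sl Γ L g (u * w0 * x) = Nat.card {w : Pl Γ L // f (u * w * x) ≠ 0} := by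
  unfold Sl
  have e1 : ∀ y : G, u * (u⁻¹ * y * x⁻¹) * x = y := by intro y; group
  have e2 : ∀ y : G, y * (u * w0 * x)⁻¹ * w0 = u⁻¹ * y * x⁻¹ := by
    intro y
    rw [mul_inv, mul_inv]
    calc y * (u⁻¹ * w0⁻¹ * x⁻¹) * w0 = u⁻¹ * y * x⁻¹ * (w0⁻¹ * w0) := by
          simp only [mul_assoc, mul_comm, mul_left_comm]
      _ = _ := by rw [inv_mul_cancel, mul_one]
  refine Nat.card_congr ⟨fun y => ⟨⟨u⁻¹ * y.1 * x⁻¹, ?_⟩, ?_⟩, fun w => ⟨u * w.1 * x, ?_, ?_⟩,
    ?_, ?_⟩
  · have h1 := (Pl Γ L).mul_mem y.2.1 hw0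
    rw [e2] at h1
    exact h1
  · show f (u * (u⁻¹ * y.1 * x⁻¹) * x) ≠ 0
    have h1 := (Pl Γ L).mul_mem y.2.1 hw0
    rw [e2] at h1
    rw [← hg _ h1, e1]
    exact y.2.2
  · have h2 : u * w.1 * x * (u * w0 * x)⁻¹ = (w.1 : G) * w0⁻¹ := by
      rw [mul_inv, mul_inv]
      calc u * (w.1 : G) * x * (u⁻¹ * w0⁻¹ * x⁻¹) = (w.1 : G) * w0⁻¹ * (u * u⁻¹) * (x * x⁻¹) := by
            simp only [mul_assoc, mul_comm, mul_left_comm]
        _ = _ := by rw [mul_inv_cancel, mul_inv_cancel, mul_one, mul_one]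
    rw [h2]
    exact (Pl Γ L).mul_mem w.1.2 ((Pl Γ L).inv_mem hw0)
  · rw [hg _ w.1.2]
    exact w.2
  · intro y
    apply Subtype.ext
    exact e1 y.1
  · intro w
    apply Subtype.ext
    apply Subtype.ext
    show u⁻¹ * (u * w.1 * x) * x⁻¹ = w.1
    group

theorem SC_le {G ι : Type*} [CommGroup G] (Γ : ι → Subgroup G) (L : List ι) (j : ι)
    (hj : j ∈ L) : Γ j ≤ Pl Γ L := by
  induction L with
  | nil => simp at hj
  | cons i L ih =>
    rcases List.mem_cons.1 hj with rfl | h
    · exact le_sup_left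
    · exact (ih h).trans le_sup_right

/-- if the values on the coset are given by the indicator function of `Γ j`, the slice has
`Nat.card (Γ j)` points -/
theorem SC_card {G ι : Type*} [CommGroup G] [Fintype G] (Γ : ι → Subgroup G) (L : List ι)
    (g : G → ℤ) (x : G) (hx : g x ≠ 0) (j : ι) (hj : j ∈ L)
    (h : ∀ w ∈ Pl Γ L, (w ∈ Γ j → g (w * x) = g x) ∧ (w ∉ Γ j → g (w * x) = 0)) :
    Sl Γ L g x = Nat.card (Γ j) := by
  unfold Sl
  symm
  refine Nat.card_congr ⟨fun w => ⟨w.1 * x, ?_, ?_⟩, fun y => ⟨y.1 * x⁻¹, ?_⟩, ?_, ?_⟩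
  · rw [mul_inv_cancel_right]
    exact SC_le Γ L j hj w.2
  · rw [(h w.1 (SC_le Γ L j hj w.2)).1 w.2]
    exact hx
  · by_contra hc
    have h1 := (h _ y.2.1).2 hc
    rw [inv_mul_cancel_right] at h1
    exact y.2.2 h1
  · intro w
    apply Subtype.ext
    exact mul_inv_cancel_right _ _
  · intro y
    apply Subtype.ext
    exact inv_mul_cancel_right _ _

theorem single_coset {G ι : Type*} [CommGroup G] [Fintype G] (Γ : ι → Subgroup G) (L : List ι)
    (hnd : L.Nodup) (hI : Indep Γ L) (h4 : ∀ i ∈ L, 4 ≤ Nat.card (Γ i))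
    (h5 : ∀ i ∈ L, ∀ j ∈ L, i ≠ j → Nat.card (Γ i) = 4 → 5 ≤ Nat.card (Γ j))
    (f : G → ℤ) (hf : MDv Γ L f) (x : G) (hx : f x ≠ 0) (hS : Sl Γ L f x ≤ 6) :
    ∃ i ∈ L, Nat.card (Γ i) ≤ 6 ∧
      ∀ w ∈ Pl Γ L, (w ∈ Γ i → f (w * x) = f x) ∧ (w ∉ Γ i → f (w * x) = 0) := by
  classical
  induction L generalizing f x with
  | nil => exact absurd (hf x) hx
  | cons i L ih =>
    have hnd' : L.Nodup := (List.nodup_cons.1 hnd).2
    have hiL : i ∉ L := (List.nodup_cons.1 hnd).1
    have h4' : ∀ i ∈ L, 4 ≤ Nat.card (Γ i) := fun j hj => h4 j (List.mem_cons_of_mem _ hj)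
    have h5' : ∀ i ∈ L, ∀ j ∈ L, i ≠ j → Nat.card (Γ i) = 4 → 5 ≤ Nat.card (Γ j) :=
      fun a ha b hb => h5 a (List.mem_cons_of_mem _ ha) b (List.mem_cons_of_mem _ hb)
    have ih' := ih hnd' hI.2 h4' h5'
    have hsum := (KL_sum Γ i L hI.1 f x).trans hS
    set s : Γ i → ℕ := fun u => Nat.card {w : Pl Γ L // f ((u : G) * w * x) ≠ 0} with hs
    have hsum : ∑ v : Γ i, s v ≤ 6 := hsum
    have hpos : ∀ u : Γ i, ∀ w ∈ Pl Γ L, f ((u : G) * w * x) ≠ 0 → 0 < s u := by
      intro u w hw h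
      rw [hs]
      have : Nonempty {w : Pl Γ L // f ((u : G) * w * x) ≠ 0} := ⟨⟨⟨w, hw⟩, h⟩⟩
      exact Nat.card_pos
    have hpos' : ∀ u : Γ i, 0 < s u → ∃ w ∈ Pl Γ L, f ((u : G) * w * x) ≠ 0 := by
      intro u h
      have h1 : Nonempty {w : Pl Γ L // f ((u : G) * w * x) ≠ 0} := by
        by_contra hc
        rw [not_nonempty_iff] at hc
        have : s u = 0 := by rw [hs]; exact Nat.card_of_isEmpty
        omega
      obtain ⟨w⟩ := h1
      exact ⟨w.1, w.1.2, w.2⟩
    have hone : (1 : Γ i) = ⟨1, (Γ i).one_mem⟩ := rfl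
    have hs1 : 0 < s 1 := by
      apply hpos 1 1 (Pl Γ L).one_mem
      rw [Subgroup.coe_one, one_mul, one_mul]
      exact hx
    by_cases hA : ∃ u0 : Γ i, ∀ w ∈ Pl Γ L, f ((u0 : G) * w * x) = 0
    · obtain ⟨u0, hu0⟩ := hA
      -- the function equal to `f` on the slice `u`
      have hg : ∀ u : Γ i, ∃ g : G → ℤ, MDv Γ L g ∧ ∀ w ∈ Pl Γ L,
          g ((u : G) * w * x) = f ((u : G) * w * x) := by
        intro u
        refine ⟨fun y => - (f ((u0 : G) * (u : G)⁻¹ * y) - f y),
          KL_neg Γ L _ (hf _ ((Γ i).mul_mem u0.2 ((Γ i).inv_mem u.2))), ?_⟩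
        intro w hw
        have e : (u0 : G) * (u : G)⁻¹ * ((u : G) * w * x) = (u0 : G) * w * x := by group
        show - (f ((u0 : G) * (u : G)⁻¹ * ((u : G) * w * x)) - f ((u : G) * w * x)) = _
        rw [e, hu0 w hw]
        ring
      have hsle : ∀ u : Γ i, s u ≤ 6 := by
        intro u
        exact (Finset.single_le_sum (f := s) (fun _ _ => Nat.zero_le _) (Finset.mem_univ u)).trans
          hsum
      have key : ∀ u : Γ i, ∀ w0 ∈ Pl Γ L, f ((u : G) * w0 * x) ≠ 0 →
          ∃ j ∈ L, Nat.card (Γ j) ≤ 6 ∧ s u = Nat.card (Γ j) ∧ ∀ w ∈ Pl Γ L,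
            (w ∈ Γ j → f ((u : G) * (w * w0) * x) = f ((u : G) * w0 * x)) ∧
            (w ∉ Γ j → f ((u : G) * (w * w0) * x) = 0) := by
        intro u w0 hw0 h0
        obtain ⟨g, hg1, hg2⟩ := hg u
        have hsl := SC_slice Γ L f g x (u : G) w0 hw0 hg2
        have h00 : g ((u : G) * w0 * x) ≠ 0 := by rw [hg2 w0 hw0]; exact h0
        obtain ⟨j, hj, hj6, hj2⟩ := ih' g hg1 ((u : G) * w0 * x) h00 (by
          rw [hsl]; exact hsle u)
        refine ⟨j, hj, hj6, ?_, ?_⟩
        · have h1 := SC_card Γ L g ((u : G) * w0 * x) h00 j hj hj2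
          rw [hsl] at h1
          exact h1
        · intro w hw
          have e : w * ((u : G) * w0 * x) = (u : G) * (w * w0) * x := by
            simp only [mul_assoc, mul_left_comm]
          have h2 := hj2 w hw
          rw [e, hg2 _ ((Pl Γ L).mul_mem hw hw0), hg2 w0 hw0] at h2
          exact h2
      obtain ⟨j, hj, hj6, hj1, hj2⟩ := key 1 1 (Pl Γ L).one_mem (by
        rw [Subgroup.coe_one, one_mul, one_mul]; exact hx)
      refine ⟨j, List.mem_cons_of_mem _ hj, hj6, ?_⟩
      have hempty : ∀ u : Γ i, u ≠ 1 → ∀ w ∈ Pl Γ L, f ((u : G) * w * x) = 0 := by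
        intro u hu w hw
        by_contra hc
        obtain ⟨j', hj', hj6', hj1', -⟩ := key u w hw hc
        have h1 := h4' j hj
        have h2 := h4' j' hj'
        have h3 : s u + s 1 ≤ ∑ v : Γ i, s v := by
          rw [← Finset.sum_pair hu]
          exact Finset.sum_le_sum_of_subset (Finset.subset_univ _)
        omega
      intro w hw
      constructor
      · intro hwj
        have h1 := (hj2 w (SC_le Γ L j hj hwj)).1 hwj
        rw [Subgroup.coe_one, one_mul, one_mul, mul_one, one_mul] at h1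
        exact h1
      · intro hwj
        obtain ⟨u, hu, k, hk, rfl⟩ := Subgroup.mem_sup.1 hw
        by_cases hu1 : u = 1
        · subst hu1
          rw [one_mul] at hwj ⊢
          have h1 := (hj2 k hk).2 hwj
          rw [Subgroup.coe_one, one_mul, mul_one] at h1
          exact h1
        · exact hempty ⟨u, hu⟩ (fun h => hu1 (congrArg Subtype.val h)) k hk
    · push Not at hA
      have hall : ∀ u : Γ i, 0 < s u := by
        intro u
        obtain ⟨w, hw, h⟩ := hA u
        exact hpos u w hw h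
      have hcard : Fintype.card (Γ i) = Nat.card (Γ i) := (Nat.card_eq_fintype_card).symm
      have hpair : ∀ u u' : Γ i, u ≠ u' → s u + s u' + Nat.card (Γ i) ≤ 8 := by
        intro u u' huu
        have h1 : ∑ v ∈ (univ \ {u, u'} : Finset (Γ i)), s v + ∑ v ∈ ({u, u'} : Finset (Γ i)), s v
            = ∑ v : Γ i, s v := Finset.sum_sdiff (Finset.subset_univ _)
        rw [Finset.sum_pair huu] at h1
        have h2 : (univ \ {u, u'} : Finset (Γ i)).card ≤ ∑ v ∈ (univ \ {u, u'} : Finset (Γ i)), s v := by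
          rw [Finset.card_eq_sum_ones]
          exact Finset.sum_le_sum (fun v _ => hall v)
        rw [Finset.card_sdiff_of_subset (Finset.subset_univ _), Finset.card_univ,
          Finset.card_pair huu, hcard] at h2
        omega
      have hi4 := h4 i List.mem_cons_self
      have heq : ∀ u u' : Γ i, ∀ w ∈ Pl Γ L, f ((u : G) * w * x) = f ((u' : G) * w * x) := by
        intro u u' w0 hw0
        by_contra hne
        have huu : u ≠ u' := by rintro rfl; exact hne rfl
        obtain ⟨k, hk, hk2⟩ := min_support Γ L hI.2 _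
          (hf _ ((Γ i).mul_mem u'.2 ((Γ i).inv_mem u.2))) ((u : G) * w0 * x) (by
          have e : (u' : G) * (u : G)⁻¹ * ((u : G) * w0 * x) = (u' : G) * w0 * x := by group
          show f ((u' : G) * (u : G)⁻¹ * ((u : G) * w0 * x)) - f ((u : G) * w0 * x) ≠ 0
          rw [e]
          exact sub_ne_zero.2 (Ne.symm hne))
        have h1 := hk2.trans (KL_diff Γ L f x u u' w0 hw0)
        have h2 := hpair u u' huu
        have h3 := h4' k hk
        have h6 : Nat.card (Γ k) ≤ s u + s u' := h1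
        have h7 : Nat.card (Γ i) = 4 := by omega
        have h8 := h5 i List.mem_cons_self k (List.mem_cons_of_mem _ hk)
          (fun h => hiL (h ▸ hk)) h7
        omega
      have hseq : ∀ u : Γ i, s u = s 1 := by
        intro u
        have h1 := heq u 1
        rw [hs]
        have : ∀ w : Pl Γ L, f ((u : G) * w * x) ≠ 0 ↔ f (((1 : Γ i) : G) * w * x) ≠ 0 := by
          intro w
          rw [h1 w w.2]
        exact Nat.card_congr (Equiv.subtypeEquivRight this)
      have hs1' : s 1 = 1 := by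
        have h1 : ∑ v : Γ i, s v = Nat.card (Γ i) * s 1 := by
          rw [Finset.sum_congr rfl (fun v _ => hseq v), Finset.sum_const, Finset.card_univ, hcard,
            smul_eq_mul]
        rw [h1] at hsum
        have h2 : 4 * s 1 ≤ 6 := le_trans (Nat.mul_le_mul_right _ hi4) hsum
        omega
      have hic : Nat.card (Γ i) ≤ 6 := by
        have h1 : ∑ v : Γ i, s v = Nat.card (Γ i) * s 1 := by
          rw [Finset.sum_congr rfl (fun v _ => hseq v), Finset.sum_const, Finset.card_univ, hcard,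
            smul_eq_mul]
        rw [h1, hs1', mul_one] at hsum
        exact hsum
      refine ⟨i, List.mem_cons_self, hic, ?_⟩
      intro w hw
      obtain ⟨u, hu, k, hk, rfl⟩ := Subgroup.mem_sup.1 hw
      have h1 := heq ⟨u, hu⟩ 1 k hk
      rw [Subgroup.coe_one, one_mul] at h1
      have hk1 : f (k * x) ≠ 0 → k = 1 := by
        intro h
        have h2 : Nat.card {w : Pl Γ L // f (((1 : Γ i) : G) * w * x) ≠ 0} = 1 := hs1'
        rw [Nat.card_eq_one_iff_unique] at h2
        have h3 := h2.1.elim (⟨⟨k, hk⟩, by rw [Subgroup.coe_one, one_mul]; exact h⟩ :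
          {w : Pl Γ L // f (((1 : Γ i) : G) * w * x) ≠ 0})
          ⟨1, by rw [Subgroup.coe_one, Subgroup.coe_one, one_mul, one_mul]; exact hx⟩
        have h4 := congrArg (fun z => ((z.1 : Pl Γ L) : G)) h3
        exact h4
      constructor
      · intro hwi
        have hki : k ∈ Γ i := by
          have := (Γ i).mul_mem ((Γ i).inv_mem hu) hwi
          rwa [inv_mul_cancel_left] at this
        have hk0 : k = 1 := Subgroup.disjoint_def.1 hI.1 hki hk
        subst hk0
        rw [one_mul] at h1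
        exact h1
      · intro hwi
        by_contra hc
        have h2 : f (u * k * x) = f (k * x) := h1
        rw [h2] at hc
        have hk0 := hk1 hc
        subst hk0
        rw [mul_one] at hwi
        exact hwi hu

end Pool.Agent.helper88.OF
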