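import Pool.Agent.helper86.OF.SpecB

/-!
# Distribution of tokens (module TPL)
-/

open scoped BigOperators

namespace Pool.Agent.OF

noncomputable section

open Classical

namespace TPLaux

variable {V : Type} [Fintype V]

/-- The vertices with the token `i`. -/
def S (T : V → Finset ℕ) (i : ℕ) : Finset V := Finset.univ.filter fun v => i ∈ T v

/-- The colours `i` and `j` are exchanged at `v`. -/
def sw (T : V → Finset ℕ) (v : V) (i j : ℕ) : V → Finset ℕ :=
  Function.update T v ((T v).map (Equiv.swap i j).toEmbedding)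

theorem mem_S (T : V → Finset ℕ) (i : ℕ) (v : V) : v ∈ S T i ↔ i ∈ T v := by
  simp [S]

theorem sw_same (T : V → Finset ℕ) (v : V) (i j k : ℕ) :
    k ∈ sw T v i j v ↔ Equiv.swap i j k ∈ T v := by
  unfold sw
  rw [Function.update_self]
  simp only [Finset.mem_map, Equiv.coe_toEmbedding]
  constructor
  · rintro ⟨a, ha, rfl⟩
    simpa using ha
  · intro h
    exact ⟨_, h, by simp⟩

theorem sw_other (T : V → Finset ℕ) (v w : V) (h : w ≠ v) (i j : ℕ) :
    sw T v i j w = T w := by
  unfold sw
  rw [Function.update_of_ne h]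

theorem sw_comm (T : V → Finset ℕ) (v : V) (i j : ℕ) : sw T v i j = sw T v j i := by
  unfold sw
  rw [Equiv.swap_comm]

theorem sw_tok (D : ℕ) (a : V → ℕ) (T : V → Finset ℕ)
    (hT : ∀ v, T v ⊆ Finset.range D ∧ (T v).card = a v) (v : V) (i j : ℕ) (hi : i < D)
    (hj : j < D) : ∀ w, sw T v i j w ⊆ Finset.range D ∧ (sw T v i j w).card = a w := by
  intro w
  by_cases h : w = v
  · subst h
    constructor
    · intro k hk
      rw [sw_same] at hk
      by_cases hki : k = i
      · subst hki; exact Finset.mem_range.2 hi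
      by_cases hkj : k = j
      · subst hkj; exact Finset.mem_range.2 hj
      rw [Equiv.swap_apply_of_ne_of_ne hki hkj] at hk
      exact (hT w).1 hk
    · unfold sw
      rw [Function.update_self, Finset.card_map]
      exact (hT w).2
  · rw [sw_other T v w h]
    exact hT w

theorem cnt1 (T : V → Finset ℕ) (v : V) (i j : ℕ) (hi : i ∈ T v) (hj : j ∉ T v) :
    (S (sw T v i j) i).card + 1 = (S T i).card ∧
    (S (sw T v i j) j).card = (S T j).card + 1 ∧
    ∀ k, k ≠ i → k ≠ j → S (sw T v i j) k = S T k := by
  refine ⟨?_, ?_, ?_⟩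
  · have : S (sw T v i j) i = (S T i).erase v := by
      ext w
      rw [mem_S, Finset.mem_erase, mem_S]
      by_cases h : w = v
      · subst h
        rw [sw_same]
        simp [hj]
      · rw [sw_other T v w h]
        simp [h]
    rw [this]
    exact Finset.card_erase_add_one ((mem_S T i v).2 hi)
  · have : S (sw T v i j) j = insert v (S T j) := by
      ext w
      rw [mem_S, Finset.mem_insert, mem_S]
      by_cases h : w = v
      · subst h
        rw [sw_same]
        simp [hi]
      · rw [sw_other T v w h]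
        simp [h]
    rw [this]
    exact Finset.card_insert_of_notMem (fun h => hj ((mem_S T j v).1 h))
  · intro k hki hkj
    ext w
    rw [mem_S, mem_S]
    by_cases h : w = v
    · subst h
      rw [sw_same, Equiv.swap_apply_of_ne_of_ne hki hkj]
    · rw [sw_other T v w h]

theorem par1 (T : V → Finset ℕ) (v : V) (i j : ℕ) (h : ¬ (i ∈ T v ↔ j ∈ T v)) :
    (S (sw T v i j) i).card % 2 ≠ (S T i).card % 2 ∧
    (S (sw T v i j) j).card % 2 ≠ (S T j).card % 2 ∧
    ∀ k, k ≠ i → k ≠ j → S (sw T v i j) k = S T k := by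
  by_cases hi : i ∈ T v
  · have hj : j ∉ T v := fun hj => h ⟨fun _ => hj, fun _ => hi⟩
    obtain ⟨h1, h2, h3⟩ := cnt1 T v i j hi hj
    refine ⟨by omega, by omega, h3⟩
  · have hj : j ∈ T v := by
      by_contra hj
      exact h ⟨fun h => absurd h hi, fun h => absurd h hj⟩
    obtain ⟨h1, h2, h3⟩ := cnt1 T v j i hj hi
    rw [sw_comm] at h1 h2 h3
    refine ⟨by omega, by omega, fun k hki hkj => h3 k hkj hki⟩

/-- The bad colours. -/
def bad (D p : ℕ) (T : V → Finset ℕ) : Finset ℕ :=
  (Finset.range D).filter fun i => (S T i).card % 2 ≠ p % 2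

theorem mem_bad (D p : ℕ) (T : V → Finset ℕ) (i : ℕ) :
    i ∈ bad D p T ↔ i < D ∧ (S T i).card % 2 ≠ p % 2 := by
  simp [bad]

theorem sum_S (D : ℕ) (a : V → ℕ) (T : V → Finset ℕ)
    (hT : ∀ v, T v ⊆ Finset.range D ∧ (T v).card = a v) :
    ∑ i ∈ Finset.range D, (S T i).card = ∑ v, a v := by
  have h1 : ∀ i ∈ Finset.range D, (S T i).card = ∑ v : V, if i ∈ T v then 1 else 0 := by
    intro i _
    rw [S, Finset.card_filter]
  rw [Finset.sum_congr rfl h1, Finset.sum_comm]
  refine Finset.sum_congr rfl fun v _ => ?_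
  rw [← Finset.card_filter, ← (hT v).2]
  congr 1
  ext i
  simp only [Finset.mem_filter]
  exact ⟨fun h => h.2, fun h => ⟨(hT v).1 h, h⟩⟩

theorem bad_even (D p : ℕ) (a : V → ℕ) (T : V → Finset ℕ)
    (hT : ∀ v, T v ⊆ Finset.range D ∧ (T v).card = a v)
    (hs : (∑ v, a v) % 2 = (p * D) % 2) : (bad D p T).card % 2 = 0 := by
  rw [← sum_S D a T hT] at hs
  have h1 : (∑ i ∈ Finset.range D, ((S T i).card + p)) % 2 = 0 := by
    rw [Finset.sum_add_distrib, Finset.sum_const, Finset.card_range, smul_eq_mul, Nat.add_mod, hs,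
      ← Nat.add_mod]
    have : p * D + D * p = 2 * (p * D) := by ring
    rw [this]
    simp
  have h2 : (bad D p T).card % 2 = (∑ i ∈ Finset.range D, ((S T i).card + p)) % 2 := by
    rw [bad, Finset.card_filter, Finset.sum_nat_mod, Finset.sum_nat_mod (Finset.range D) 2
      (fun i => (S T i).card + p)]
    congr 1
    refine Finset.sum_congr rfl fun i _ => ?_
    by_cases h : (S T i).card % 2 = p % 2
    · rw [if_neg (by simpa using h)]
      omega
    · rw [if_pos h]
      omega
  rw [h2, h1]

theorem sum_Z (D : ℕ) (a : V → ℕ) (T : V → Finset ℕ)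
    (hT : ∀ v, T v ⊆ Finset.range D ∧ (T v).card = a v) (Z : Finset V) :
    ∑ v ∈ Zᶜ, a v + ∑ v ∈ Z, (D - a v) =
      ∑ i ∈ Finset.range D, (Finset.univ.filter fun v => ¬ (i ∈ T v ↔ v ∈ Z)).card := by
  have h1 : ∀ i ∈ Finset.range D, (Finset.univ.filter fun v => ¬ (i ∈ T v ↔ v ∈ Z)).card =
      ∑ v : V, if ¬ (i ∈ T v ↔ v ∈ Z) then 1 else 0 := by
    intro i _
    rw [Finset.card_filter]
  rw [Finset.sum_congr rfl h1, Finset.sum_comm, ← Finset.sum_compl_add_sum Z]
  congr 1
  · refine Finset.sum_congr rfl fun v hv => ?_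
    rw [← Finset.card_filter, ← (hT v).2]
    congr 1
    ext i
    rw [Finset.mem_compl] at hv
    simp only [Finset.mem_filter, hv, iff_false, not_not]
    exact ⟨fun h => ⟨(hT v).1 h, h⟩, fun h => h.2⟩
  · refine Finset.sum_congr rfl fun v hv => ?_
    rw [← Finset.card_filter, ← (hT v).2]
    have : (Finset.range D).filter (fun i => ¬ (i ∈ T v ↔ v ∈ Z)) = Finset.range D \ T v := by
      ext i
      simp [hv]
    rw [this, Finset.card_sdiff_of_subset (hT v).1, Finset.card_range]

theorem stage1 (D p : ℕ) (a : V → ℕ) (hs : (∑ v, a v) % 2 = (p * D) % 2) :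
    ∀ n : ℕ, ∀ T : V → Finset ℕ, (∀ v, T v ⊆ Finset.range D ∧ (T v).card = a v) →
    (bad D p T).card = n →
    (∃ Z : Finset V, (Z.card + p) % 2 = 1 ∧ ∑ v ∈ Zᶜ, a v + ∑ v ∈ Z, (D - a v) + 2 ≤ D) ∨
    ∃ T : V → Finset ℕ, (∀ v, T v ⊆ Finset.range D ∧ (T v).card = a v) ∧ bad D p T = ∅ := by
  intro n
  induction n using Nat.strong_induction_on with
  | _ n ih =>
    intro T hT hn
    by_cases h0 : bad D p T = ∅
    · exact Or.inr ⟨T, hT, h0⟩
    have hev := bad_even D p a T hT hs
    have hpos : 0 < (bad D p T).card := Finset.card_pos.2 (Finset.nonempty_iff_ne_empty.2 h0)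
    have h2 : 1 < (bad D p T).card := by omega
    by_cases hc : ∃ i ∈ bad D p T, ∃ j ∈ bad D p T, i ≠ j ∧ ∃ v, ¬ (i ∈ T v ↔ j ∈ T v)
    · obtain ⟨i, hi, j, hj, hij, v, hv⟩ := hc
      obtain ⟨h3, h4, h5⟩ := par1 T v i j hv
      rw [mem_bad] at hi hj
      have hT' := sw_tok D a T hT v i j hi.1 hj.1
      have hsub : bad D p (sw T v i j) ⊆ (bad D p T).erase i := by
        intro k hk
        rw [Finset.mem_erase]
        rw [mem_bad] at hk
        have hki : k ≠ i := by
          rintro rfl
          omega
        have hkj : k ≠ j := by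
          rintro rfl
          omega
        refine ⟨hki, ?_⟩
        rw [mem_bad, ← h5 k hki hkj]
        exact hk
      have hlt : (bad D p (sw T v i j)).card < n := by
        have h6 := Finset.card_le_card hsub
        rw [Finset.card_erase_of_mem ((mem_bad D p T i).2 hi)] at h6
        omega
      exact ih _ hlt _ hT' rfl
    · obtain ⟨α, hα, β, hβ, hαβ⟩ := Finset.one_lt_card.1 h2
      have hZ : ∀ k ∈ bad D p T, ∀ v, (k ∈ T v ↔ v ∈ S T α) := by
        intro k hk v
        rw [mem_S]
        by_contra hh
        by_cases hka : k = α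
        · subst hka
          exact hh Iff.rfl
        · exact hc ⟨k, hk, α, hα, hka, v, hh⟩
      by_cases hd : ∃ k < D, k ∉ bad D p T ∧ ∃ v w, v ≠ w ∧ ¬ (k ∈ T v ↔ v ∈ S T α) ∧
          ¬ (k ∈ T w ↔ w ∈ S T α)
      · obtain ⟨k, hkD, hk, v, w, hvw, hv, hw⟩ := hd
        have hkα : k ≠ α := by
          rintro rfl
          exact hk hα
        have hkβ : k ≠ β := by
          rintro rfl
          exact hk hβ
        have hv' : ¬ (k ∈ T v ↔ α ∈ T v) := by
          rwa [mem_S] at hv
        have hw' : ¬ (k ∈ T w ↔ β ∈ T w) := by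
          rw [hZ β hβ w]
          exact hw
        obtain ⟨h3, h4, h5⟩ := par1 T v k α hv'
        have hw'' : ¬ (k ∈ sw T v k α w ↔ β ∈ sw T v k α w) := by
          rw [sw_other T v w (Ne.symm hvw)]
          exact hw'
        obtain ⟨h6, h7, h8⟩ := par1 (sw T v k α) w k β hw''
        rw [mem_bad] at hα hβ hk
        have hT' := sw_tok D a T hT v k α hkD hα.1
        have hT'' := sw_tok D a _ hT' w k β hkD hβ.1
        have e1 := h5 β hkβ.symm hαβ.symm
        have e2 := h8 α hkα.symm hαβ
        have hgood : (S T k).card % 2 = p % 2 := by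
          by_contra hh
          exact hk ⟨hkD, hh⟩
        have hsub : bad D p (sw (sw T v k α) w k β) ⊆ (bad D p T).erase α := by
          intro l hl
          rw [Finset.mem_erase]
          rw [mem_bad] at hl
          have hlk : l ≠ k := by
            rintro rfl
            omega
          have hlα : l ≠ α := by
            rintro rfl
            rw [e2] at hl
            omega
          have hlβ : l ≠ β := by
            rintro rfl
            rw [e1] at h7
            omega
          refine ⟨hlα, ?_⟩
          rw [mem_bad, ← h5 l hlk hlα, ← h8 l hlk hlβ]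
          exact hl
        have hlt : (bad D p (sw (sw T v k α) w k β)).card < n := by
          have h9 := Finset.card_le_card hsub
          rw [Finset.card_erase_of_mem ((mem_bad D p T α).2 hα)] at h9
          omega
        exact ih _ hlt _ hT'' rfl
      · left
        refine ⟨S T α, ?_, ?_⟩
        · rw [mem_bad] at hα
          omega
        · rw [sum_Z D a T hT]
          have hle : ∀ i ∈ Finset.range D,
              (Finset.univ.filter fun v => ¬ (i ∈ T v ↔ v ∈ S T α)).card ≤
                if i ∉ bad D p T then 1 else 0 := by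
            intro i hi
            by_cases hib : i ∈ bad D p T
            · rw [if_neg (by simpa using hib)]
              apply le_of_eq
              rw [Finset.card_eq_zero, Finset.filter_eq_empty_iff]
              intro v _
              simpa using hZ i hib v
            · rw [if_pos hib]
              rw [Finset.card_le_one]
              intro v hv w hw
              by_contra hvw
              rw [Finset.mem_filter] at hv hw
              exact hd ⟨i, Finset.mem_range.1 hi, hib, v, w, hvw, hv.2, hw.2⟩
          have h3 := Finset.sum_le_sum hle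
          rw [← Finset.card_filter] at h3
          have h4 : (Finset.range D).filter (fun i => i ∉ bad D p T) =
              Finset.range D \ bad D p T := by
            ext i
            simp
          have h5 : bad D p T ⊆ Finset.range D := Finset.filter_subset _ _
          rw [h4, Finset.card_sdiff_of_subset h5, Finset.card_range] at h3
          have h6 := Finset.card_le_card h5
          rw [Finset.card_range] at h6
          omega

theorem stage2 (D p : ℕ) (a : V → ℕ) :
    ∀ n : ℕ, ∀ T : V → Finset ℕ, (∀ v, T v ⊆ Finset.range D ∧ (T v).card = a v) →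
    bad D p T = ∅ → ∑ i ∈ Finset.range D, (S T i).card ^ 2 = n →
    ∃ T : V → Finset ℕ, (∀ v, T v ⊆ Finset.range D ∧ (T v).card = a v) ∧ bad D p T = ∅ ∧
      ∀ i < D, ∀ j < D, (S T i).card ≤ (S T j).card + 5 := by
  intro n
  induction n using Nat.strong_induction_on with
  | _ n ih =>
    intro T hT hb hn
    by_cases hc : ∀ i < D, ∀ j < D, (S T i).card ≤ (S T j).card + 5
    · exact ⟨T, hT, hb, hc⟩
    push Not at hc
    obtain ⟨i, hi, j, hj, hij⟩ := hc
    have hne : i ≠ j := by
      rintro rfl
      omega
    have h1 : 1 < (S T i \ S T j).card := by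
      have := Finset.le_card_sdiff (S T j) (S T i)
      omega
    obtain ⟨v, hv, w, hw, hvw⟩ := Finset.one_lt_card.1 h1
    rw [Finset.mem_sdiff, mem_S, mem_S] at hv hw
    obtain ⟨h2, h3, h4⟩ := cnt1 T v i j hv.1 hv.2
    have hw1 : i ∈ sw T v i j w := by
      rw [sw_other T v w (Ne.symm hvw)]
      exact hw.1
    have hw2 : j ∉ sw T v i j w := by
      rw [sw_other T v w (Ne.symm hvw)]
      exact hw.2
    obtain ⟨h5, h6, h7⟩ := cnt1 (sw T v i j) w i j hw1 hw2
    have hT' := sw_tok D a T hT v i j hi hj
    have hT'' := sw_tok D a _ hT' w i j hi hj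
    have ei : (S (sw (sw T v i j) w i j) i).card + 2 = (S T i).card := by omega
    have ej : (S (sw (sw T v i j) w i j) j).card = (S T j).card + 2 := by omega
    have ek : ∀ k, k ≠ i → k ≠ j → S (sw (sw T v i j) w i j) k = S T k := by
      intro k hki hkj
      rw [h7 k hki hkj, h4 k hki hkj]
    have hgood : ∀ k < D, (S T k).card % 2 = p % 2 := by
      intro k hk
      by_contra hh
      have : k ∈ bad D p T := (mem_bad D p T k).2 ⟨hk, hh⟩
      rw [hb] at this
      simp at this
    refine ih (∑ k ∈ Finset.range D, (S (sw (sw T v i j) w i j) k).card ^ 2) ?_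
      (sw (sw T v i j) w i j) hT'' ?_ rfl
    · rw [← hn]
      have hiD : i ∈ Finset.range D := Finset.mem_range.2 hi
      have hjD : j ∈ (Finset.range D).erase i :=
        Finset.mem_erase.2 ⟨Ne.symm hne, Finset.mem_range.2 hj⟩
      rw [← Finset.add_sum_erase _ _ hiD, ← Finset.add_sum_erase _ _ hjD,
        ← Finset.add_sum_erase _ (fun k => (S T k).card ^ 2) hiD,
        ← Finset.add_sum_erase _ (fun k => (S T k).card ^ 2) hjD]
      have hrest : ∑ k ∈ ((Finset.range D).erase i).erase j,
          (S (sw (sw T v i j) w i j) k).card ^ 2 =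
          ∑ k ∈ ((Finset.range D).erase i).erase j, (S T k).card ^ 2 := by
        refine Finset.sum_congr rfl fun k hk => ?_
        rw [Finset.mem_erase, Finset.mem_erase] at hk
        rw [ek k hk.2.1 hk.1]
      rw [hrest, ej, ← ei]
      nlinarith
    · rw [Finset.eq_empty_iff_forall_notMem]
      intro k hk
      rw [mem_bad] at hk
      have := hgood k hk.1
      by_cases hki : k = i
      · subst hki
        omega
      by_cases hkj : k = j
      · subst hkj
        omega
      rw [ek k hki hkj] at hk
      exact hk.2 this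

end TPLaux

open TPLaux in
theorem TPL : TPL_stmt := by
  intro V _ D p a ha hs
  have hex : ∀ v, ∃ t : Finset ℕ, t ⊆ Finset.range D ∧ t.card = a v := by
    intro v
    exact Finset.exists_subset_card_eq (by rw [Finset.card_range]; exact ha v)
  choose T0 hT0 using hex
  rcases stage1 D p a hs _ T0 hT0 rfl with h | ⟨T1, hT1, hb1⟩
  · exact Or.inl h
  right
  obtain ⟨T, hT, hb, hle⟩ := stage2 D p a _ T1 hT1 hb1 rfl
  refine ⟨T, hT, ?_, ?_⟩
  · intro i hi
    by_contra hh
    have : i ∈ bad D p T := (mem_bad D p T i).2 ⟨hi, hh⟩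
    rw [hb] at this
    simp at this
  · intro i hi
    have h1 : ∑ j ∈ Finset.range D, (S T i).card ≤
        ∑ j ∈ Finset.range D, ((S T j).card + 5) :=
      Finset.sum_le_sum fun j hj => hle i hi j (Finset.mem_range.1 hj)
    rw [Finset.sum_const, Finset.card_range, smul_eq_mul, Finset.sum_add_distrib,
      sum_S D a T hT, Finset.sum_const, Finset.card_range, smul_eq_mul] at h1
    have h2 : D * (S T i).card ≤ ∑ v, a v + 5 * D := by
      rw [Nat.mul_comm 5 D]
      exact h1
    exact h2

end

end Pool.Agent.OF
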